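import Pool.Agent.T9h51.OP.Res
import Pool.Agent.W924.LF.Germ

/-!
# The logarithms of multiplicatively independent polynomials are algebraically independent functions
-/

set_option autoImplicit false

namespace Pool.Agent.T9h51.OP

open Polynomial Filter Topology

variable {r : ℕ}

theorem analyticAt_lg (g : Fin r → ℝ[X]) {t : ℝ} (ht : (GG g).eval t ≠ 0) (k : Fin r) : AnalyticAt ℝ (lg g k) t := by
  have hk : (g k).eval t ≠ 0 := by
    intro h
    apply ht
    unfold GG
    rw [eval_prod]
    exact Finset.prod_eq_zero (Finset.mem_univ k) h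
  have h1 : AnalyticAt ℝ (fun s => (g k).eval s) t := AnalyticOnNhd.eval_polynomial (g k) t (Set.mem_univ _)
  have h2 : lg g k = fun s => Real.log ((g k).eval s) := by
    funext s
    unfold lg
    rw [Real.log_abs]
  rw [h2]
  have h3 : AnalyticAt ℝ Real.log ((g k).eval t) := by
    rcases lt_or_gt_of_ne hk with h | h
    · have h4 : (fun x : ℝ => Real.log (-x)) = Real.log := by
        funext x
        exact Real.log_neg_eq_log x
      rw [← h4]
      exact AnalyticAt.comp' (analyticAt_log (by linarith)) analyticAt_id.neg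
    · exact analyticAt_log h
  exact AnalyticAt.comp' (g := Real.log) (f := fun s => (g k).eval s) h3 h1

/-- **Independence.** -/
theorem log_indep (g : Fin r → ℝ[X]) (hg : MultIndep g) (t0 : ℝ) (ht0 : (GG g).eval t0 ≠ 0) (P : MvPolynomial (Fin r) ℝ)
    (hP : ∀ᶠ t in 𝓝 t0, MvPolynomial.eval (fun k => lg g k t) P = 0) : P = 0 := by
  classical
  obtain ⟨E, _, _, D, T, hconst, hTc, hTadd, hTmul, hTder, hTinj, hTcongr⟩ := Pool.Agent.W924.LF.t_GERM ℝ
  have : CharZero E := charZero_of_injective_algebraMap (algebraMap ℝ E).injective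
  have hsh : ∀ f : ℝ → ℝ, AnalyticAt ℝ f t0 → AnalyticAt ℝ (fun s => f (t0 + s)) 0 := by
    intro f hf
    have h1 : AnalyticAt ℝ (fun s : ℝ => t0 + s) 0 := analyticAt_const.add analyticAt_id
    have h2 : AnalyticAt ℝ f (t0 + 0) := by rwa [add_zero]
    exact AnalyticAt.comp (g := f) (f := fun s : ℝ => t0 + s) h2 h1
  have hmap : Tendsto (fun s : ℝ => t0 + s) (𝓝 0) (𝓝 t0) := by
    have h1 : Continuous fun s : ℝ => t0 + s := by fun_prop
    have := h1.tendsto 0
    rwa [add_zero] at this
  have hmap' : Tendsto (fun t : ℝ => t - t0) (𝓝 t0) (𝓝 0) := by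
    have h1 : Continuous fun s : ℝ => s - t0 := by fun_prop
    have := h1.tendsto t0
    rwa [sub_self] at this
  obtain ⟨τ, hτ⟩ : ∃ τ : E, τ = T (fun s => t0 + s) := ⟨_, rfl⟩
  have hpolyan : ∀ P : ℝ[X], AnalyticAt ℝ (fun s => P.eval (t0 + s)) 0 := fun P =>
    hsh _ (AnalyticOnNhd.eval_polynomial P t0 (Set.mem_univ _))
  have hid : AnalyticAt ℝ (fun s : ℝ => t0 + s) 0 := analyticAt_const.add analyticAt_id
  have hpoly : ∀ P : ℝ[X], T (fun s => P.eval (t0 + s)) = aeval τ P := by
    intro P
    induction P using Polynomial.induction_on with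
    | C x => simp only [eval_C, aeval_C]; exact hTc x
    | add P Q hP hQ =>
      simp only [eval_add, map_add]
      rw [hTadd _ _ (hpolyan P) (hpolyan Q), hP, hQ]
    | monomial n x ih =>
      have h1 : (fun s => (C x * X ^ (n + 1)).eval (t0 + s)) = fun s => (C x * X ^ n).eval (t0 + s) * (t0 + s) := by
        funext s
        rw [pow_succ, ← mul_assoc, eval_mul, eval_X]
      rw [h1, hTmul _ _ (hpolyan _) hid, ih, pow_succ, ← mul_assoc, map_mul _ _ X, aeval_X, hτ]
  have htr : ∀ Q : ℝ[X], aeval τ Q = 0 → Q = 0 := by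
    intro Q hQ
    rw [← hpoly] at hQ
    have h1 := hTinj _ (hpolyan Q) hQ
    have h2 : ∀ᶠ t in 𝓝 t0, Q.eval t = 0 := by
      filter_upwards [hmap'.eventually h1] with t ht
      simpa using ht
    exact Polynomial.eq_zero_of_infinite_isRoot Q (infinite_of_mem_nhds t0 h2)
  have hDτ : D τ = 1 := by
    rw [hτ, ← hTder _ hid]
    have h1 : deriv (fun s : ℝ => t0 + s) = fun _ => 1 := by
      funext s
      simp
    rw [h1, hTc, map_one]
  obtain ⟨y, hy⟩ : ∃ y : Fin r → E, ∀ k, y k = T (fun s => lg g k (t0 + s)) := ⟨_, fun _ => rfl⟩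
  have hyan : ∀ k, AnalyticAt ℝ (fun s => lg g k (t0 + s)) 0 := fun k => hsh _ (analyticAt_lg g ht0 k)
  have hne : ∀ᶠ s in 𝓝 (0 : ℝ), (GG g).eval (t0 + s) ≠ 0 := by
    have h1 : ContinuousAt (fun s => (GG g).eval (t0 + s)) 0 := (hpolyan (GG g)).continuousAt
    exact h1.eventually_ne (by simpa using ht0)
  have hDy : ∀ k, D (y k) * aeval τ (GG g) = aeval τ (qq g k) := by
    intro k
    rw [hy, ← hTder _ (hyan k), ← hpoly, ← hpoly, ← hTmul _ _ (hyan k).deriv (hpolyan _)]
    apply hTcongr
    filter_upwards [hne] with s hs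
    have h1 : HasDerivAt (fun s => lg g k (t0 + s)) ((qq g k).eval (t0 + s) / (GG g).eval (t0 + s)) s :=
      (hasDerivAt_lg g hs k).comp_const_add t0 s
    rw [h1.deriv, div_mul_cancel₀ _ hs]
  -- the field of rational functions
  let F := FractionRing ℝ[X]
  have hτinj : Function.Injective ((aeval τ : ℝ[X] →ₐ[ℝ] E) : ℝ[X] →+* E) := by
    rw [injective_iff_map_eq_zero]
    exact htr
  letI : Algebra F E := (IsFractionRing.lift (K := F) hτinj).toAlgebra
  have hmapF : ∀ p : ℝ[X], algebraMap F E (algebraMap ℝ[X] F p) = aeval τ p := fun p =>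
    IsFractionRing.lift_algebraMap hτinj p
  haveI : IsScalarTower ℝ F E := by
    apply IsScalarTower.of_algebraMap_eq
    intro x
    have h1 : algebraMap ℝ F x = algebraMap ℝ[X] F (C x) := by
      rw [IsScalarTower.algebraMap_apply ℝ ℝ[X] F]
      rfl
    rw [h1, hmapF, aeval_C]
  obtain ⟨DF, hDF⟩ := Pool.Agent.TH600.LC.exists_der_frac (Polynomial.derivative' (R := ℝ))
  have hDaeval : ∀ p : ℝ[X], D (aeval τ p) = aeval τ (derivative p) := by
    intro p
    rw [Derivation.map_aeval, hDτ, smul_eq_mul, mul_one]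
  have hc : ∀ f : F, D (algebraMap F E f) = algebraMap F E (DF f) := by
    intro f
    obtain ⟨p, q, hq, rfl⟩ := IsFractionRing.div_surjective (A := ℝ[X]) f
    have h : ∀ p : ℝ[X], D (algebraMap F E (algebraMap ℝ[X] F p)) = algebraMap F E (DF (algebraMap _ _ p)) := by
      intro p
      rw [hmapF, hDaeval, hDF, hmapF]
      rfl
    rw [map_div₀, Derivation.leibniz_div, Derivation.leibniz_div, h, h]
    simp only [smul_eq_mul, map_mul, map_sub, map_pow, map_inv₀]
    rfl
  have hGF : algebraMap ℝ[X] F (GG g) ≠ 0 := by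
    rw [Ne, map_eq_zero_iff _ (IsFractionRing.injective ℝ[X] F)]
    rintro h0
    rw [h0, eval_zero] at ht0
    exact ht0 rfl
  have hGE : aeval τ (GG g) ≠ 0 := by
    intro h0
    have := htr _ h0
    rw [this, eval_zero] at ht0
    exact ht0 rfl
  have hind : AlgebraicIndependent F y := by
    refine Pool.Agent.W253.LF.t_OST ℝ F E DF D hc hconst (Fin r) y
      (fun k => algebraMap ℝ[X] F (qq g k) / algebraMap ℝ[X] F (GG g)) (fun k => ?_) ?_
    · rw [map_div₀, hmapF, hmapF, ← hDy k, mul_div_cancel_right₀ _ hGE]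
    · intro c f hf
      obtain ⟨A, ⟨Q, hQm⟩, hrel, hAQ⟩ := IsFractionRing.exists_reduced_fraction ℝ[X] f
      have hcop : IsCoprime A Q := hrel.isCoprime
      have hQ0 : Q ≠ 0 := nonZeroDivisors.ne_zero hQm
      have hQE : aeval τ Q ≠ 0 := fun h0 => hQ0 (htr _ h0)
      have hf2 : algebraMap F E f = aeval τ A / aeval τ Q := by
        rw [← hAQ, IsFractionRing.mk'_eq_div, map_div₀, hmapF, hmapF]
      have h1 : D (∑ i, algebraMap ℝ E (c i) * y i) * aeval τ (GG g) = aeval τ (∑ k, C (c k) * qq g k) := by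
        rw [map_sum, Finset.sum_mul, map_sum]
        refine Finset.sum_congr rfl fun k _ => ?_
        rw [Derivation.leibniz, Derivation.map_algebraMap, smul_zero, add_zero, smul_eq_mul, mul_assoc, hDy, map_mul, aeval_C]
      have h2 : Q * Q * ∑ k, C (c k) * qq g k = GG g * (Q * derivative A - A * derivative Q) := by
        rw [← sub_eq_zero]
        apply htr
        rw [hf, hf2, Derivation.leibniz_div, hDaeval, hDaeval, smul_eq_mul, smul_eq_mul] at h1
        simp only [map_sub, map_mul] at h1 ⊢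
        rw [← h1]
        field_simp
        ring
      exact combos hg c fun ρ => residues g hg.ne_zero c A Q hQ0 hcop h2 ρ
  -- the relation
  have hrel : ∀ P : MvPolynomial (Fin r) ℝ, AnalyticAt ℝ (fun s => MvPolynomial.eval (fun k => lg g k (t0 + s)) P) 0 ∧
      T (fun s => MvPolynomial.eval (fun k => lg g k (t0 + s)) P) = MvPolynomial.aeval y P := by
    intro P
    induction P using MvPolynomial.induction_on with
    | C a =>
      simp only [MvPolynomial.eval_C, MvPolynomial.aeval_C]
      exact ⟨analyticAt_const, hTc a⟩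
    | add p q hp hq =>
      simp only [map_add]
      refine ⟨hp.1.add hq.1, ?_⟩
      rw [hTadd _ _ hp.1 hq.1, hp.2, hq.2]
    | mul_X p k hp =>
      simp only [map_mul, MvPolynomial.eval_X, MvPolynomial.aeval_X]
      refine ⟨hp.1.mul (hyan k), ?_⟩
      rw [hTmul _ _ hp.1 (hyan k), hp.2, hy]
  have h0 : MvPolynomial.aeval y P = 0 := by
    rw [← (hrel P).2]
    have h3 := hTc 0
    rw [map_zero] at h3
    rw [← h3]
    apply hTcongr
    exact hmap.eventually hP
  have h1 : MvPolynomial.map (algebraMap ℝ F) P = 0 := by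
    apply hind.eq_zero_of_aeval_eq_zero
    rw [MvPolynomial.aeval_map_algebraMap]
    exact h0
  exact (MvPolynomial.map_injective _ (algebraMap ℝ F).injective) (by rw [h1, map_zero])

end Pool.Agent.T9h51.OP
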