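import Pool.Agent.T9h51.OP.Ind
import Pool.Agent.Y921.SR.Fin

/-!
# One-parameter families of matrices of logarithms
-/

set_option autoImplicit false

namespace Pool.Agent.T9h51.OP

open Polynomial Filter Topology Module
open Pool.Agent.Y921.SR (ZeroProp bil)

variable {r : ℕ}

section cl

variable {g : Fin r → ℝ[X]}

theorem Cl.mulpow {d m : ℕ} {f : ℝ → ℝ} (h : Cl g d m f) (k : Fin r) (e : ℕ) :
    Cl g (d + e) m (fun t => lg g k t ^ e * f t) := by
  induction e with
  | zero => exact h.congr fun t => by simp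
  | succ e ih => exact (ih.mull k).congr fun t => by rw [pow_succ]; ring

theorem Cl.monomial (e : Fin r → ℕ) (s : Finset (Fin r)) : Cl g (∑ k ∈ s, e k) 0 (fun t => ∏ k ∈ s, lg g k t ^ e k) := by
  classical
  induction s using Finset.induction_on with
  | empty => exact ⟨1, by simp, by simp⟩
  | insert k s hk ih =>
    have h1 := ih.mulpow k (e k)
    rw [Finset.sum_insert hk, add_comm]
    exact h1.congr fun t => by rw [Finset.prod_insert hk]

theorem Cl.eval (P : MvPolynomial (Fin r) ℝ) {n : ℕ} (hn : P.totalDegree ≤ n) :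
    Cl g n 0 (fun t => MvPolynomial.eval (fun k => lg g k t) P) := by
  have h1 : Cl g n 0 (fun t => ∑ m ∈ P.support, (C (P.coeff m)).eval t * ∏ k, lg g k t ^ m k) := by
    refine Cl.sum _ fun m hm => ?_
    have h2 : Cl g n 0 (fun t => ∏ k, lg g k t ^ m k) := by
      refine (Cl.monomial (g := g) (fun k => m k) Finset.univ).up_le ?_
      have h3 := MvPolynomial.le_totalDegree hm
      rw [Finsupp.sum_fintype _ _ (fun _ => rfl)] at h3
      exact h3.trans hn
    have h3 := h2.mulp (q := C (P.coeff m)) (a := 0) (by rw [natDegree_C])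
    exact h3
  refine h1.congr fun t => ?_
  rw [MvPolynomial.eval_eq]
  refine Finset.sum_congr rfl fun m _ => ?_
  rw [eval_C]
  congr 1
  rw [Finset.prod_subset (Finset.subset_univ _)]
  intro k _ hk
  rw [Finsupp.notMem_support_iff.1 hk, pow_zero]

end cl

section parts

/-- apply an additive map to the coefficients -/
noncomputable def part (φ : ℂ → ℝ) (P : MvPolynomial (Fin r) ℂ) : MvPolynomial (Fin r) ℝ :=
  ∑ m ∈ P.support, MvPolynomial.monomial m (φ (P.coeff m))

theorem part_totalDegree (φ : ℂ → ℝ) (P : MvPolynomial (Fin r) ℂ) : (part φ P).totalDegree ≤ P.totalDegree := by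
  unfold part
  refine (MvPolynomial.totalDegree_finset_sum _ _).trans ?_
  refine Finset.sup_le fun m hm => ?_
  refine (MvPolynomial.totalDegree_monomial_le _ _).trans ?_
  exact MvPolynomial.le_totalDegree hm

theorem coeff_part (φ : ℂ → ℝ) (hφ : φ 0 = 0) (P : MvPolynomial (Fin r) ℂ) (m : Fin r →₀ ℕ) :
    (part φ P).coeff m = φ (P.coeff m) := by
  classical
  unfold part
  rw [MvPolynomial.coeff_sum]
  simp only [MvPolynomial.coeff_monomial]
  rw [Finset.sum_ite_eq']
  split_ifs with h
  · rfl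
  · rw [MvPolynomial.notMem_support_iff.1 h, hφ]

theorem eval_part (P : MvPolynomial (Fin r) ℂ) (x : Fin r → ℝ) :
    MvPolynomial.eval (fun k => (x k : ℂ)) P =
      (MvPolynomial.eval x (part Complex.re P) : ℂ) + (MvPolynomial.eval x (part Complex.im P) : ℂ) * Complex.I := by
  unfold part
  rw [map_sum, map_sum, MvPolynomial.eval_eq]
  push_cast
  rw [Finset.sum_mul, ← Finset.sum_add_distrib]
  refine Finset.sum_congr rfl fun m _ => ?_
  rw [MvPolynomial.eval_monomial, MvPolynomial.eval_monomial, Finsupp.prod]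
  push_cast
  conv_lhs => rw [← Complex.re_add_im (P.coeff m)]
  ring

end parts

section intervals

/-- the number of the elements of `R` below `t` -/
noncomputable def idx (R : Finset ℝ) (t : ℝ) : ℕ := (R.filter fun ρ => ρ < t).card

theorem idx_le (R : Finset ℝ) (t : ℝ) : idx R t ≤ R.card := Finset.card_filter_le _ _

theorem idx_ord (R : Finset ℝ) (i : ℕ) : ({t | t ∉ R ∧ idx R t = i} : Set ℝ).OrdConnected := by
  refine ⟨fun s hs u hu x hx => ?_⟩
  have hmono : ∀ {a b : ℝ}, a ≤ b → (R.filter fun ρ => ρ < a) ⊆ R.filter fun ρ => ρ < b := by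
    intro a b hab ρ hρ
    rw [Finset.mem_filter] at hρ ⊢
    exact ⟨hρ.1, hρ.2.trans_le hab⟩
  have h1 : idx R s ≤ idx R x := Finset.card_le_card (hmono hx.1)
  have h2 : idx R x ≤ idx R u := Finset.card_le_card (hmono hx.2)
  have h3 : idx R s = i := hs.2
  have h4 : idx R u = i := hu.2
  refine ⟨fun hxR => ?_, by omega⟩
  have h5 : s < x := lt_of_le_of_ne hx.1 fun h => hs.1 (h ▸ hxR)
  have h6 : x < u := lt_of_le_of_ne hx.2 fun h => hu.1 (h ▸ hxR)
  have h7 : (R.filter fun ρ => ρ < s) ⊂ R.filter fun ρ => ρ < u := by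
    refine (Finset.ssubset_iff_of_subset (hmono (h5.trans h6).le)).2 ⟨x, ?_, ?_⟩
    · exact Finset.mem_filter.2 ⟨hxR, h6⟩
    · intro h
      exact absurd (Finset.mem_filter.1 h).2 (not_lt.2 h5.le)
  have h8 : idx R s < idx R u := Finset.card_lt_card h7
  omega

theorem idx_nhds (R : Finset ℝ) {t0 : ℝ} (h0 : t0 ∉ R) : ∀ᶠ t in 𝓝 t0, t ∉ R ∧ idx R t = idx R t0 := by
  have h1 : ∀ᶠ t in 𝓝 t0, ∀ ρ ∈ R, t ≠ ρ ∧ (ρ < t ↔ ρ < t0) := by
    rw [Filter.eventually_all_finset]
    intro ρ hρ
    have hne : t0 ≠ ρ := fun h => h0 (h ▸ hρ)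
    rcases lt_or_gt_of_ne hne with h | h
    · filter_upwards [Iio_mem_nhds h] with t ht
      exact ⟨ne_of_lt ht, iff_of_false (not_lt.2 (le_of_lt ht)) (not_lt.2 h.le)⟩
    · filter_upwards [Ioi_mem_nhds h] with t ht
      exact ⟨ne_of_gt ht, iff_of_true ht h⟩
  filter_upwards [h1] with t ht
  refine ⟨fun h => (ht t h).1 rfl, ?_⟩
  unfold idx
  congr 1
  exact Finset.filter_congr fun ρ hρ => (ht ρ hρ).2

end intervals

/-- the matrices of the family -/
noncomputable def fam {n : ℕ} {K : IntermediateField ℚ ℂ} (g : Fin r → ℝ[X]) (W : Matrix (Fin n) (Fin n) ℂ)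
    (B : Fin r → Matrix (Fin n) (Fin n) K) (t : ℝ) : Matrix (Fin n) (Fin n) ℂ :=
  W + ∑ k, ((lg g k t : ℝ) : ℂ) • (B k).map (algebraMap K ℂ)

/-- the determinant as a polynomial -/
noncomputable def dpol {n : ℕ} (W : Matrix (Fin n) (Fin n) ℂ) (B : Fin r → Matrix (Fin n) (Fin n) ℂ) :
    MvPolynomial (Fin r) ℂ :=
  (Matrix.of fun i j => MvPolynomial.C (W i j) + ∑ k, MvPolynomial.C (B k i j) * MvPolynomial.X k).det

theorem dpol_totalDegree {n : ℕ} (W : Matrix (Fin n) (Fin n) ℂ) (B : Fin r → Matrix (Fin n) (Fin n) ℂ) :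
    (dpol W B).totalDegree ≤ n := by
  classical
  unfold dpol
  rw [Matrix.det_apply]
  refine (MvPolynomial.totalDegree_finset_sum _ _).trans (Finset.sup_le fun σ _ => ?_)
  have h0 : (Equiv.Perm.sign σ • ∏ i, (Matrix.of fun i j => MvPolynomial.C (W i j) +
      ∑ k, MvPolynomial.C (B k i j) * MvPolynomial.X k) (σ i) i).totalDegree ≤
      (∏ i, (Matrix.of fun i j => MvPolynomial.C (W i j) +
      ∑ k, MvPolynomial.C (B k i j) * (MvPolynomial.X k : MvPolynomial (Fin r) ℂ)) (σ i) i).totalDegree := by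
    rcases Int.units_eq_one_or (Equiv.Perm.sign σ) with h | h
    · rw [h, one_smul]
    · rw [h, Units.neg_smul, one_smul, MvPolynomial.totalDegree_neg]
  refine h0.trans ((MvPolynomial.totalDegree_finset_prod _ _).trans ?_)
  refine (Finset.sum_le_card_nsmul _ _ 1 fun i _ => ?_).trans (by simp)
  rw [Matrix.of_apply]
  refine (MvPolynomial.totalDegree_add _ _).trans (max_le (by simp) ?_)
  refine (MvPolynomial.totalDegree_finset_sum _ _).trans (Finset.sup_le fun k _ => ?_)
  refine (MvPolynomial.totalDegree_mul _ _).trans ?_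
  rw [MvPolynomial.totalDegree_C, MvPolynomial.totalDegree_X, zero_add]

theorem dpol_eval {n : ℕ} (W : Matrix (Fin n) (Fin n) ℂ) (B : Fin r → Matrix (Fin n) (Fin n) ℂ) (x : Fin r → ℂ) :
    MvPolynomial.eval x (dpol W B) = (W + ∑ k, x k • B k).det := by
  unfold dpol
  rw [RingHom.map_det]
  congr 1
  ext i j
  simp only [RingHom.mapMatrix_apply, Matrix.map_apply, Matrix.of_apply, map_add, map_sum, map_mul, MvPolynomial.eval_C,
    MvPolynomial.eval_X, Matrix.add_apply, Matrix.sum_apply, Matrix.smul_apply, smul_eq_mul]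
  congr 1
  exact Finset.sum_congr rfl fun k _ => mul_comm _ _

/-- **Main theorem.** -/
theorem main (n r D : ℕ) : ∃ C : ℕ, ∀ g : Fin r → ℝ[X], (∀ k, (g k).natDegree ≤ D) → MultIndep g →
    ∀ (K : IntermediateField ℚ ℂ) (V : Submodule K ℂ), ZeroProp V → ∀ W : Matrix (Fin n) (Fin n) ℂ,
    (∀ i j, W i j ∈ V) → ∀ B : Fin r → Matrix (Fin n) (Fin n) K,
    (∃ w v : Fin n → K, w ≠ 0 ∧ v ≠ 0 ∧ ∑ i, ∑ j, (w i * v j) • W i j = 0 ∧
      ∀ k, ∑ i, ∑ j, w i * B k i j * v j = 0) ∨
    ∀ T : Finset ℝ, (∀ t ∈ T, (∀ k, (g k).eval t ≠ 0) ∧ (fam g W B t).det = 0) → T.card ≤ C := by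
  classical
  obtain ⟨N, hN⟩ := zeros (r := r) (D := D) n 0
  refine ⟨(r * D + 1) * N, fun g hgD hg K V hV W hW B => ?_⟩
  by_cases hex : ∀ X : Fin r → ℂ, (W + ∑ k, X k • (B k).map (algebraMap K ℂ)).det = 0
  · left
    obtain ⟨w, v, hw, hv, h1, h2⟩ := Pool.Agent.Y921.SR.family hV W hW B hex
    refine ⟨w, v, hw, hv, h1, fun k => ?_⟩
    rw [← h2 k]
    simp only [dotProduct, Matrix.mulVec, Finset.mul_sum]
    exact Finset.sum_congr rfl fun i _ => Finset.sum_congr rfl fun j _ => by ring
  right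
  intro T hT
  obtain ⟨P, hP⟩ : ∃ P, P = dpol W fun k => (B k).map (algebraMap K ℂ) := ⟨_, rfl⟩
  have hPd : P.totalDegree ≤ n := by
    rw [hP]
    exact dpol_totalDegree _ _
  have hPe : ∀ x : Fin r → ℂ, MvPolynomial.eval x P = (W + ∑ k, x k • (B k).map (algebraMap K ℂ)).det := by
    intro x
    rw [hP, dpol_eval]
  have hP0 : P ≠ 0 := by
    rintro h0
    apply hex
    intro X
    rw [← hPe, h0, map_zero]
  have hfam : ∀ t, (fam g W B t).det = (MvPolynomial.eval (fun k => lg g k t) (part Complex.re P) : ℂ) +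
      (MvPolynomial.eval (fun k => lg g k t) (part Complex.im P) : ℂ) * Complex.I := by
    intro t
    rw [← eval_part, hPe]
    rfl
  have hzero : ∀ t, (fam g W B t).det = 0 → MvPolynomial.eval (fun k => lg g k t) (part Complex.re P) = 0 ∧
      MvPolynomial.eval (fun k => lg g k t) (part Complex.im P) = 0 := by
    intro t ht
    rw [hfam] at ht
    have h1 := congrArg Complex.re ht
    have h2 := congrArg Complex.im ht
    simp at h1 h2
    exact ⟨h1, h2⟩
  have hGG0 : GG g ≠ 0 := by
    unfold GG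
    rw [Finset.prod_ne_zero_iff]
    exact fun k _ => hg.ne_zero k
  obtain ⟨R, hR⟩ : ∃ R, R = (GG g).roots.toFinset := ⟨_, rfl⟩
  have hRmem : ∀ t, t ∉ R ↔ (GG g).eval t ≠ 0 := by
    intro t
    rw [hR, Multiset.mem_toFinset, mem_roots hGG0, IsRoot.def]
  have hRcard : R.card ≤ r * D := by
    rw [hR]
    exact (Multiset.toFinset_card_le _).trans ((card_roots' _).trans (natDegree_GG g hgD))
  have hTR : ∀ t ∈ T, t ∉ R := by
    intro t ht
    rw [hRmem]
    unfold GG
    rw [eval_prod, Finset.prod_ne_zero_iff]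
    exact fun k _ => (hT t ht).1 k
  -- one interval
  have hone : ∀ i : ℕ, (T.filter fun t => idx R t = i).card ≤ N := by
    intro i
    have hI := idx_ord R i
    have hIG : ∀ t ∈ {t | t ∉ R ∧ idx R t = i}, (GG g).eval t ≠ 0 := fun t ht => (hRmem t).1 ht.1
    have hsub : ∀ t ∈ T.filter (fun t => idx R t = i), t ∈ {t | t ∉ R ∧ idx R t = i} := by
      intro t ht
      exact ⟨hTR t (Finset.mem_filter.1 ht).1, (Finset.mem_filter.1 ht).2⟩
    rcases hN g hgD _ (Cl.eval (part Complex.re P) ((part_totalDegree _ _).trans hPd)) _ hI hIG with h1 | h1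
    · rcases hN g hgD _ (Cl.eval (part Complex.im P) ((part_totalDegree _ _).trans hPd)) _ hI hIG with h2 | h2
      · -- identically zero
        rcases (T.filter fun t => idx R t = i).eq_empty_or_nonempty with h3 | ⟨t0, ht0⟩
        · rw [h3]
          simp
        · exfalso
          have h4 := hsub t0 ht0
          have h5 := idx_nhds R h4.1
          rw [h4.2] at h5
          have e1 : part Complex.re P = 0 := log_indep g hg t0 ((hRmem t0).1 h4.1) _ (by
            filter_upwards [h5] with t ht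
            exact h1 t ht)
          have e2 : part Complex.im P = 0 := log_indep g hg t0 ((hRmem t0).1 h4.1) _ (by
            filter_upwards [h5] with t ht
            exact h2 t ht)
          apply hP0
          ext m
          have e3 := coeff_part Complex.re Complex.zero_re P m
          have e4 := coeff_part Complex.im Complex.zero_im P m
          rw [e1, MvPolynomial.coeff_zero] at e3
          rw [e2, MvPolynomial.coeff_zero] at e4
          rw [MvPolynomial.coeff_zero]
          exact Complex.ext e3.symm e4.symm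
      · exact h2 _ fun t ht => ⟨hsub t ht, (hzero t (hT t (Finset.mem_filter.1 ht).1).2).2⟩
    · exact h1 _ fun t ht => ⟨hsub t ht, (hzero t (hT t (Finset.mem_filter.1 ht).1).2).1⟩
  calc T.card = ∑ i ∈ Finset.range (r * D + 1), (T.filter fun t => idx R t = i).card := by
        apply Finset.card_eq_sum_card_fiberwise
        intro t _
        rw [Finset.mem_coe, Finset.mem_range]
        have := idx_le R t
        omega
    _ ≤ ∑ _i ∈ Finset.range (r * D + 1), N := Finset.sum_le_sum fun i _ => hone i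
    _ = (r * D + 1) * N := by simp

/-- the linear polynomials -/
theorem multIndep_linear (θ : Fin r → ℝ) (hθ : Function.Injective θ) : MultIndep fun k => X + C (θ k) := by
  classical
  intro a b γ h
  have hne : ∀ e : Fin r → ℕ, ∏ k, (X + C (θ k) : ℝ[X]) ^ e k ≠ 0 := by
    intro e
    rw [Finset.prod_ne_zero_iff]
    exact fun k _ => pow_ne_zero _ (X_add_C_ne_zero _)
  have hroot : ∀ (e : Fin r → ℕ) (j : Fin r), (∏ k, (X + C (θ k) : ℝ[X]) ^ e k).rootMultiplicity (-θ j) = e j := by
    intro e j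
    rw [← count_roots, roots_prod _ _ (hne e), Multiset.count_bind]
    simp only [roots_pow, Multiset.count_nsmul, roots_X_add_C]
    rw [show (Multiset.map (fun k => e k * Multiset.count (-θ j) {-θ k}) Finset.univ.val).sum =
      ∑ k, e k * Multiset.count (-θ j) {-θ k} from rfl, Finset.sum_eq_single j]
    · simp
    · intro k _ hk
      rw [Multiset.count_singleton, if_neg, mul_zero]
      intro h1
      exact hk (hθ (neg_injective h1.symm))
    · simp
  have hγ : γ ≠ 0 := by
    rintro rfl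
    apply hne a
    rw [h, map_zero, zero_mul]
  funext j
  have h1 := congrArg (fun p => p.rootMultiplicity (-θ j)) h
  simp only at h1
  rw [hroot, ← count_roots, roots_C_mul _ hγ, count_roots, hroot] at h1
  exact h1

end Pool.Agent.T9h51.OP
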