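import Pool.Agent.T9h51.OP.Zero
import Pool.Agent.Y796.LI.Core

/-!
# Logarithmic derivatives of multiplicatively independent polynomials
-/

set_option autoImplicit false

namespace Pool.Agent.T9h51.OP

open Polynomial

variable {r : ℕ}

/-- the polynomials are multiplicatively independent modulo the constants -/
def MultIndep (g : Fin r → ℝ[X]) : Prop :=
  ∀ (a b : Fin r → ℕ) (γ : ℝ), ∏ k, g k ^ a k = C γ * ∏ k, g k ^ b k → a = b

theorem MultIndep.ne_zero {g : Fin r → ℝ[X]} (h : MultIndep g) (k : Fin r) : g k ≠ 0 := by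
  classical
  intro h0
  have h1 := h (fun j => if j = k then 1 else 0) (fun _ => 0) 0 (by
    rw [map_zero, zero_mul]
    apply Finset.prod_eq_zero (Finset.mem_univ k)
    rw [if_pos rfl, h0, pow_one])
  have h2 := congrFun h1 k
  simp at h2

/-- multiplicity of a complex root -/
noncomputable def mu (g : Fin r → ℝ[X]) (k : Fin r) (ρ : ℂ) : ℕ := ((g k).map (algebraMap ℝ ℂ)).rootMultiplicity ρ

theorem residues (g : Fin r → ℝ[X]) (hg : ∀ k, g k ≠ 0) (c : Fin r → ℝ) (A Q : ℝ[X]) (hQ : Q ≠ 0) (hc : IsCoprime A Q)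
    (h : Q * Q * ∑ k, C (c k) * qq g k = GG g * (Q * derivative A - A * derivative Q)) (ρ : ℂ) :
    ∑ k, c k * (mu g k ρ : ℝ) = 0 := by
  classical
  set φ := algebraMap ℝ ℂ with hφ
  have hinj : Function.Injective φ := (algebraMap ℝ ℂ).injective
  obtain ⟨G, hG⟩ : ∃ G : Fin r → ℂ[X], ∀ k, G k = (g k).map φ := ⟨_, fun _ => rfl⟩
  have hG0 : ∀ k, G k ≠ 0 := fun k => by
    rw [hG, Ne, Polynomial.map_eq_zero_iff hinj]
    exact hg k
  obtain ⟨R, hR⟩ : ∃ R : Finset ℂ, R = Finset.univ.biUnion fun k => (G k).roots.toFinset := ⟨_, rfl⟩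
  have hmem : ∀ x, x ∉ R → ∀ k, (G k).eval x ≠ 0 := by
    intro x hx k h0
    apply hx
    rw [hR, Finset.mem_biUnion]
    exact ⟨k, Finset.mem_univ _, by rw [Multiset.mem_toFinset, mem_roots (hG0 k)]; exact h0⟩
  obtain ⟨b, hb⟩ : ∃ b : ℂ → ℂ, ∀ σ, b σ = ∑ k, (c k : ℂ) * ((G k).rootMultiplicity σ : ℂ) := ⟨_, fun _ => rfl⟩
  by_cases hρ : ρ ∈ R
  swap
  · -- not a root
    refine Finset.sum_eq_zero fun k _ => ?_
    have h1 : mu g k ρ = 0 := by
      unfold mu
      rw [← hφ, ← hG]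
      exact rootMultiplicity_eq_zero (hmem ρ hρ k)
    rw [h1, Nat.cast_zero, mul_zero]
  set T : ℂ[X] := ∏ σ ∈ R, (X - C σ) with hT
  set W : ℂ[X] := ∑ σ ∈ R, C (b σ) * ∏ τ ∈ R.erase σ, (X - C τ) with hW
  have hTev : ∀ x, x ∉ R → T.eval x ≠ 0 := by
    intro x hx
    rw [hT, eval_prod, Finset.prod_ne_zero_iff]
    intro σ hσ
    rw [eval_sub, eval_X, eval_C, sub_ne_zero]
    rintro rfl
    exact hx hσ
  have hWev : ∀ x, x ∉ R → W.eval x / T.eval x = ∑ σ ∈ R, b σ * (1 / (x - σ)) := by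
    intro x hx
    rw [hW, eval_finsetSum, Finset.sum_div]
    refine Finset.sum_congr rfl fun σ hσ => ?_
    have h1 : T.eval x = (x - σ) * (∏ τ ∈ R.erase σ, (X - C τ)).eval x := by
      rw [hT, ← Finset.mul_prod_erase _ _ hσ, eval_mul, eval_sub, eval_X, eval_C]
    have h2 : (∏ τ ∈ R.erase σ, (X - C τ)).eval x ≠ 0 := by
      intro h0
      apply hTev x hx
      rw [h1, h0, mul_zero]
    rw [h1, eval_mul, eval_C, mul_div_mul_right _ _ h2, mul_one_div]
  have hlog : ∀ x, x ∉ R → ∀ k, (derivative (G k)).eval x / (G k).eval x =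
      ∑ σ ∈ R, ((G k).rootMultiplicity σ : ℂ) * (1 / (x - σ)) := by
    intro x hx k
    rw [(IsAlgClosed.splits (G k)).eval_derivative_div_eval_of_ne_zero (hmem x hx k)]
    rw [Finset.sum_multiset_map_count]
    rw [Finset.sum_subset (s₂ := R)]
    · refine Finset.sum_congr rfl fun σ _ => ?_
      rw [count_roots, nsmul_eq_mul]
    · rw [hR]
      exact Finset.subset_biUnion_of_mem (fun k => (G k).roots.toFinset) (Finset.mem_univ k)
    · intro σ _ hσ
      rw [Multiset.mem_toFinset] at hσ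
      rw [Multiset.count_eq_zero_of_notMem hσ, zero_smul]
  have hSev : ∀ x, x ∉ R → ((∑ k, C (c k) * qq g k).map φ).eval x / ((GG g).map φ).eval x =
      ∑ k, (c k : ℂ) * ((derivative (G k)).eval x / (G k).eval x) := by
    intro x hx
    rw [Polynomial.map_sum, eval_finsetSum, Finset.sum_div]
    refine Finset.sum_congr rfl fun k _ => ?_
    have h1 : ((GG g).map φ).eval x = (∏ l ∈ Finset.univ.erase k, (G l).eval x) * (G k).eval x := by
      unfold GG
      rw [← Finset.prod_erase_mul _ _ (Finset.mem_univ k), Polynomial.map_mul, eval_mul, Polynomial.map_prod, eval_prod, ← hG]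
      simp only [hG]
    have h2 : ((C (c k) * qq g k).map φ).eval x = (c k : ℂ) * ((∏ l ∈ Finset.univ.erase k, (G l).eval x) *
        (derivative (G k)).eval x) := by
      unfold qq
      rw [Polynomial.map_mul, Polynomial.map_mul, Polynomial.map_C, eval_mul, eval_mul, eval_C, Polynomial.map_prod, eval_prod,
        ← Polynomial.derivative_map, ← hG]
      simp only [hG]
      rfl
    have h3 : (∏ l ∈ Finset.univ.erase k, (G l).eval x) ≠ 0 := by
      rw [Finset.prod_ne_zero_iff]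
      exact fun l _ => hmem x hx l
    rw [h1, h2, mul_div_assoc, mul_div_mul_left _ _ h3]
  have hGev : ∀ x, x ∉ R → ((GG g).map φ).eval x ≠ 0 := by
    intro x hx
    unfold GG
    rw [Polynomial.map_prod, eval_prod, Finset.prod_ne_zero_iff]
    intro k _
    rw [← hG]
    exact hmem x hx k
  -- the identity
  have hid : (Q.map φ) * (Q.map φ) * W = T * ((Q.map φ) * derivative (A.map φ) - (A.map φ) * derivative (Q.map φ)) := by
    apply Polynomial.eq_of_infinite_eval_eq
    refine Set.Infinite.mono (s := {x | x ∉ R}) ?_ ?_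
    · intro x hx
      have e1 := congrArg (fun p => (p.map φ).eval x) h
      simp only [Polynomial.map_mul, eval_mul, Polynomial.map_sub, eval_sub, ← Polynomial.derivative_map] at e1
      have e2 := hSev x hx
      have e3 : ∑ k, (c k : ℂ) * ((derivative (G k)).eval x / (G k).eval x) = W.eval x / T.eval x := by
        rw [hWev x hx]
        simp only [hlog x hx, hb, Finset.mul_sum, Finset.sum_mul]
        rw [Finset.sum_comm]
        exact Finset.sum_congr rfl fun σ _ => Finset.sum_congr rfl fun k _ => by ring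
      rw [e3, div_eq_div_iff (hGev x hx) (hTev x hx)] at e2
      show ((Q.map φ) * (Q.map φ) * W).eval x = _
      simp only [eval_mul, eval_sub]
      apply mul_left_cancel₀ (hGev x hx)
      linear_combination (T.eval x) * e1 - ((Q.map φ).eval x * (Q.map φ).eval x) * e2
    · exact (Set.Finite.infinite_compl R.finite_toSet)
  have hTsf : Squarefree T := by
    rw [hT]
    have : T.Separable := by
      rw [hT]
      exact separable_prod_X_sub_C_iff'.2 fun x _ y _ h => h
    exact this.squarefree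
  have hTmon : T.Monic := monic_prod_of_monic _ _ fun σ _ => monic_X_sub_C σ
  have hTdeg : T.natDegree = R.card := by
    rw [hT, natDegree_prod_of_monic _ _ fun σ _ => monic_X_sub_C σ]
    simp
  have hWdeg : W.degree < T.degree := by
    rw [degree_eq_natDegree hTmon.ne_zero, hTdeg, hW]
    refine (degree_sum_le _ _).trans_lt ?_
    rw [Finset.sup_lt_iff (WithBot.bot_lt_coe _)]
    intro σ hσ
    have hle : (C (b σ) * ∏ τ ∈ R.erase σ, (X - C τ)).degree ≤ (∏ τ ∈ R.erase σ, (X - C τ)).degree := by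
      rw [← smul_eq_C_mul]
      exact degree_smul_le _ _
    refine hle.trans_lt ?_
    rw [degree_prod_of_monic _ _ fun τ _ => monic_X_sub_C τ]
    simp only [degree_X_sub_C, Finset.sum_const, Finset.card_erase_of_mem hσ]
    rw [nsmul_one]
    have : 0 < R.card := Finset.card_pos.2 ⟨σ, hσ⟩
    exact_mod_cast Nat.sub_lt this one_pos
  have hW0 : W = 0 := Pool.Agent.Y796.LI.key T W (A.map φ) (Q.map φ) hTsf hWdeg
    (by rwa [Ne, Polynomial.map_eq_zero_iff hinj]) (hc.map (mapRingHom φ)) hid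
  have hbρ : b ρ = 0 := by
    have e1 := congrArg (fun p => p.eval ρ) hW0
    simp only [eval_zero] at e1
    rw [hW, eval_finsetSum, Finset.sum_eq_single ρ] at e1
    · rw [eval_mul, eval_C, eval_prod] at e1
      refine (mul_eq_zero.1 e1).resolve_right ?_
      rw [← ne_eq, Finset.prod_ne_zero_iff]
      intro τ hτ
      rw [eval_sub, eval_X, eval_C, sub_ne_zero]
      exact (Finset.ne_of_mem_erase hτ).symm
    · intro σ hσ hne
      rw [eval_mul, eval_prod]
      refine mul_eq_zero_of_right _ (Finset.prod_eq_zero (i := ρ) (Finset.mem_erase.2 ⟨hne.symm, hρ⟩) ?_)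
      simp
    · exact fun h => absurd hρ h
  rw [hb] at hbρ
  have e2 : ((∑ k, c k * (mu g k ρ : ℝ) : ℝ) : ℂ) = 0 := by
    push_cast
    rw [← hbρ]
    refine Finset.sum_congr rfl fun k _ => ?_
    rw [hG]
    rfl
  exact_mod_cast e2

theorem exists_fun {V : Type} [AddCommGroup V] [Module ℚ V] {z : V} (hz : z ≠ 0) : ∃ ℓ : V →ₗ[ℚ] ℚ, ℓ z ≠ 0 := by
  by_contra hcon
  push Not at hcon
  exact hz ((Module.forall_dual_apply_eq_zero_iff ℚ z).1 hcon)

theorem combos {g : Fin r → ℝ[X]} (hg : MultIndep g) (c : Fin r → ℝ) (h : ∀ ρ : ℂ, ∑ k, c k * (mu g k ρ : ℝ) = 0) :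
    c = 0 := by
  classical
  by_contra hcon
  obtain ⟨k0, hk0⟩ : ∃ k, c k ≠ 0 := by
    by_contra h'
    push Not at h'
    exact hcon (funext h')
  obtain ⟨ℓ, hℓ⟩ := exists_fun hk0
  have h1 : ∀ ρ : ℂ, ∑ k, ℓ (c k) * (mu g k ρ : ℚ) = 0 := by
    intro ρ
    have h2 := congrArg ℓ (h ρ)
    rw [map_sum, map_zero] at h2
    rw [← h2]
    refine Finset.sum_congr rfl fun k _ => ?_
    have h3 : c k * (mu g k ρ : ℝ) = (mu g k ρ : ℚ) • c k := by
      rw [Rat.smul_def]
      push_cast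
      ring
    rw [h3, map_smul, smul_eq_mul, mul_comm]
  -- common denominator
  obtain ⟨N, hN⟩ : ∃ N : ℕ, N = ∏ k, (ℓ (c k)).den := ⟨_, rfl⟩
  have hN0 : N ≠ 0 := by
    rw [hN, Finset.prod_ne_zero_iff]
    exact fun k _ => (ℓ (c k)).den_nz
  have hint : ∀ k, ∃ z : ℤ, (z : ℚ) = N * ℓ (c k) := by
    intro k
    obtain ⟨M, hM⟩ : (ℓ (c k)).den ∣ N := by
      rw [hN]
      exact Finset.dvd_prod_of_mem _ (Finset.mem_univ k)
    refine ⟨M * (ℓ (c k)).num, ?_⟩
    rw [hM]
    push_cast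
    have := Rat.mul_den_eq_num (ℓ (c k))
    rw [← this]
    ring
  choose z hz using hint
  have h2 : ∀ ρ : ℂ, ∑ k, z k * (mu g k ρ : ℤ) = 0 := by
    intro ρ
    have h3 : ∑ k, (z k : ℚ) * (mu g k ρ : ℚ) = 0 := by
      simp only [hz, mul_assoc]
      rw [← Finset.mul_sum, h1, mul_zero]
    exact_mod_cast h3
  have hz0 : z k0 ≠ 0 := by
    intro h0
    have h3 := hz k0
    rw [h0, Int.cast_zero] at h3
    rcases mul_eq_zero.1 h3.symm with h4 | h4
    · exact hN0 (by exact_mod_cast h4)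
    · exact hℓ h4
  -- the two products
  set φ := algebraMap ℝ ℂ with hφ
  have hinj : Function.Injective φ := (algebraMap ℝ ℂ).injective
  obtain ⟨a, ha⟩ : ∃ a : Fin r → ℕ, ∀ k, a k = (z k).toNat := ⟨_, fun _ => rfl⟩
  obtain ⟨b, hb⟩ : ∃ b : Fin r → ℕ, ∀ k, b k = (-z k).toNat := ⟨_, fun _ => rfl⟩
  have hab : ∀ k, (a k : ℤ) - b k = z k := by
    intro k
    rw [ha, hb]
    omega
  have hp0 : ∀ e : Fin r → ℕ, (∏ k, g k ^ e k).map φ ≠ 0 := by
    intro e
    rw [Ne, Polynomial.map_eq_zero_iff hinj, Finset.prod_eq_zero_iff]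
    rintro ⟨k, -, hk⟩
    exact pow_ne_zero _ (hg.ne_zero k) hk
  have hroot : ∀ (e : Fin r → ℕ) (ρ : ℂ), ((∏ k, g k ^ e k).map φ).rootMultiplicity ρ = ∑ k, e k * mu g k ρ := by
    intro e ρ
    rw [← count_roots, Polynomial.map_prod, roots_prod _ _ (by
      have := hp0 e
      rwa [Polynomial.map_prod] at this), Multiset.count_bind]
    simp only [Polynomial.map_pow, roots_pow, Multiset.count_nsmul, count_roots]
    rfl
  have hreq : ((∏ k, g k ^ a k).map φ).roots = ((∏ k, g k ^ b k).map φ).roots := by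
    ext ρ
    rw [count_roots, count_roots, hroot, hroot]
    have h3 := h2 ρ
    simp only [← hab, sub_mul, Finset.sum_sub_distrib] at h3
    have h4 : (∑ k, (a k : ℤ) * (mu g k ρ : ℤ)) = ∑ k, (b k : ℤ) * (mu g k ρ : ℤ) := by linarith
    exact_mod_cast h4
  obtain ⟨p, hp⟩ : ∃ p, p = ∏ k, g k ^ a k := ⟨_, rfl⟩
  obtain ⟨q, hq⟩ : ∃ q, q = ∏ k, g k ^ b k := ⟨_, rfl⟩
  have hp1 := hp0 a
  have hq1 := hp0 b
  rw [← hp, ← hq] at hreq
  rw [← hp] at hp1
  rw [← hq] at hq1
  have e1 := (IsAlgClosed.splits (p.map φ)).eq_prod_roots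
  have e2 := (IsAlgClosed.splits (q.map φ)).eq_prod_roots
  have hq0 : q.leadingCoeff ≠ 0 := by
    rw [Ne, leadingCoeff_eq_zero]
    rintro rfl
    simp at hq1
  have e3 : p = C (p.leadingCoeff / q.leadingCoeff) * q := by
    apply Polynomial.map_injective φ hinj
    rw [Polynomial.map_mul, Polynomial.map_C, e1, e2, hreq, ← mul_assoc, ← C_mul]
    congr 2
    rw [leadingCoeff_map, leadingCoeff_map, map_div₀, div_mul_cancel₀]
    rw [Ne, map_eq_zero]
    exact hq0
  rw [hp, hq] at e3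
  have h5 := hg a b _ e3
  have h6 := congrFun h5 k0
  have h7 := hab k0
  rw [h6, sub_self] at h7
  exact hz0 h7.symm

end Pool.Agent.T9h51.OP
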