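import Mathlib

/-!
# The number of real zeros of polynomials in logarithms of polynomials
-/

set_option autoImplicit false

namespace Pool.Agent.T9h51.OP

open Polynomial Set

/-- `f` vanishes on `I`, or has at most `N` zeros there -/
def ZB (I : Set ℝ) (N : ℕ) (f : ℝ → ℝ) : Prop :=
  (∀ t ∈ I, f t = 0) ∨ ∀ T : Finset ℝ, (∀ t ∈ T, t ∈ I ∧ f t = 0) → T.card ≤ N

theorem ZB.mono {I : Set ℝ} {N N' : ℕ} {f : ℝ → ℝ} (h : ZB I N f) (hN : N ≤ N') : ZB I N' f :=
  h.imp id fun h T hT => (h T hT).trans hN

/-- Rolle's theorem -/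
theorem rolle {I : Set ℝ} (hI : I.OrdConnected) {f f' : ℝ → ℝ} (hf : ∀ t ∈ I, HasDerivAt f (f' t) t) {N : ℕ}
    (h : ZB I N f') : ZB I (N + 1) f := by
  classical
  rcases h with h | h
  · -- `f` is constant
    by_cases h0 : ∃ t ∈ I, f t = 0
    · left
      obtain ⟨s, hs, hs0⟩ := h0
      have key : ∀ a ∈ I, ∀ b ∈ I, a ≤ b → f a = f b := by
        intro a ha b hb hab
        have hsub : Icc a b ⊆ I := hI.out ha hb
        refine (constant_of_has_deriv_right_zero (a := a) (b := b) (f := f) ?_ ?_ b (right_mem_Icc.2 hab)).symm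
        · exact fun t ht => (hf t (hsub ht)).continuousAt.continuousWithinAt
        · intro t ht
          have h1 := hf t (hsub ⟨ht.1, ht.2.le⟩)
          rw [h t (hsub ⟨ht.1, ht.2.le⟩)] at h1
          exact h1.hasDerivWithinAt
      intro t ht
      rcases le_total s t with h1 | h1
      · rw [← key s hs t ht h1, hs0]
      · rw [key t ht s hs h1, hs0]
    · right
      push Not at h0
      intro T hT
      have : T = ∅ := by
        rw [Finset.eq_empty_iff_forall_notMem]
        intro t ht
        exact h0 t (hT t ht).1 (hT t ht).2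
      rw [this]
      simp
  · right
    intro T hT
    by_contra hcon
    push Not at hcon
    obtain ⟨n, hn⟩ : ∃ n, T.card = n + 1 := ⟨T.card - 1, by omega⟩
    have hn1 : N + 1 ≤ n := by omega
    let e : Fin (n + 1) ↪o ℝ := T.orderEmbOfFin hn
    have he : ∀ i, e i ∈ T := fun i => T.orderEmbOfFin_mem hn i
    have hex : ∀ i : Fin n, ∃ c, c ∈ Ioo (e i.castSucc) (e i.succ) ∧ f' c = 0 := by
      intro i
      have hlt : e i.castSucc < e i.succ := e.strictMono (Fin.castSucc_lt_succ)
      have hsub : Icc (e i.castSucc) (e i.succ) ⊆ I := hI.out (hT _ (he _)).1 (hT _ (he _)).1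
      obtain ⟨c, hc, hc0⟩ := exists_hasDerivAt_eq_zero (f := f) (f' := f') hlt
        (fun t ht => (hf t (hsub ht)).continuousAt.continuousWithinAt)
        (by rw [(hT _ (he _)).2, (hT _ (he _)).2]) (fun t ht => hf t (hsub ⟨ht.1.le, ht.2.le⟩))
      exact ⟨c, hc, hc0⟩
    choose c hc hc0 using hex
    have hmono : StrictMono c := by
      intro i j hij
      have h1 : i.succ ≤ j.castSucc := by
        rw [Fin.le_def]
        simp only [Fin.val_succ, Fin.val_castSucc]
        exact hij
      exact (hc i).2.trans_le ((e.monotone h1).trans (hc j).1.le)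
    have h2 := h (Finset.univ.image c) (by
      intro t ht
      obtain ⟨i, -, rfl⟩ := Finset.mem_image.1 ht
      refine ⟨?_, hc0 i⟩
      exact hI.out (hT _ (he i.castSucc)).1 (hT _ (he i.succ)).1 ⟨(hc i).1.le, (hc i).2.le⟩)
    rw [Finset.card_image_of_injective _ hmono.injective, Finset.card_univ, Fintype.card_fin] at h2
    omega

variable {r : ℕ} (g : Fin r → ℝ[X])

/-- the logarithms -/
noncomputable def lg (k : Fin r) (t : ℝ) : ℝ := Real.log |(g k).eval t|

/-- the product of the polynomials -/
noncomputable def GG : ℝ[X] := ∏ k, g k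

/-- the numerators of the logarithmic derivatives -/
noncomputable def qq (k : Fin r) : ℝ[X] := (∏ l ∈ Finset.univ.erase k, g l) * derivative (g k)

theorem natDegree_GG {D : ℕ} (hD : ∀ k, (g k).natDegree ≤ D) : (GG g).natDegree ≤ r * D := by
  unfold GG
  refine (natDegree_prod_le _ _).trans ?_
  refine (Finset.sum_le_card_nsmul _ _ D fun k _ => hD k).trans ?_
  simp

theorem natDegree_qq {D : ℕ} (hD : ∀ k, (g k).natDegree ≤ D) (k : Fin r) : (qq g k).natDegree ≤ r * D := by
  unfold qq
  refine natDegree_mul_le.trans ?_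
  have h1 : (∏ l ∈ Finset.univ.erase k, g l).natDegree ≤ (r - 1) * D := by
    refine (natDegree_prod_le _ _).trans ?_
    refine (Finset.sum_le_card_nsmul _ _ D fun k _ => hD k).trans ?_
    rw [Finset.card_erase_of_mem (Finset.mem_univ k)]
    simp
  have h2 : (derivative (g k)).natDegree ≤ D := (natDegree_derivative_le _).trans ((Nat.sub_le _ _).trans (hD k))
  have h3 : 1 ≤ r := by
    have := k.2
    omega
  calc _ ≤ (r - 1) * D + D := add_le_add h1 h2
    _ = r * D := by
      obtain ⟨s, rfl⟩ : ∃ s, r = s + 1 := ⟨r - 1, by omega⟩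
      simp
      ring

theorem hasDerivAt_lg {t : ℝ} (ht : (GG g).eval t ≠ 0) (k : Fin r) :
    HasDerivAt (lg g k) ((qq g k).eval t / (GG g).eval t) t := by
  classical
  have hk : (g k).eval t ≠ 0 := by
    intro h
    apply ht
    unfold GG
    rw [eval_prod]
    exact Finset.prod_eq_zero (Finset.mem_univ k) h
  have h1 : HasDerivAt (fun s => Real.log ((g k).eval s)) ((derivative (g k)).eval t / (g k).eval t) t :=
    ((g k).hasDerivAt t).log hk
  have h2 : lg g k = fun s => Real.log ((g k).eval s) := by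
    funext s
    unfold lg
    rw [Real.log_abs]
  rw [h2]
  convert h1 using 1
  unfold qq GG
  rw [← Finset.prod_erase_mul _ _ (Finset.mem_univ k), eval_mul, eval_mul, mul_div_mul_left]
  intro h
  apply ht
  unfold GG
  rw [← Finset.prod_erase_mul _ _ (Finset.mem_univ k), eval_mul, h, zero_mul]

/-- the class of functions -/
def Cl : ℕ → ℕ → (ℝ → ℝ) → Prop
  | 0, m, f => ∃ p : ℝ[X], p.natDegree ≤ m ∧ ∀ t, f t = p.eval t
  | d + 1, m, f => ∃ (P : (Fin (d + 1) → Fin r) → ℝ[X]) (h : ℝ → ℝ), (∀ β, (P β).natDegree ≤ m) ∧ Cl d m h ∧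
      ∀ t, f t = ∑ β, (P β).eval t * ∏ i, lg g (β i) t + h t

variable {g}

theorem Cl.congr {d m : ℕ} {f f' : ℝ → ℝ} (h : Cl g d m f) (hf : ∀ t, f' t = f t) : Cl g d m f' := by
  have : f' = f := funext hf
  rwa [this]

theorem Cl.mono {d : ℕ} : ∀ {m m' : ℕ} {f : ℝ → ℝ}, Cl g d m f → m ≤ m' → Cl g d m' f := by
  induction d with
  | zero =>
    rintro m m' f ⟨p, hp, h⟩ hm
    exact ⟨p, hp.trans hm, h⟩
  | succ d ih =>
    rintro m m' f ⟨P, h, hP, hh, hf⟩ hm
    exact ⟨P, h, fun β => (hP β).trans hm, ih hh hm, hf⟩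

theorem Cl.add {d : ℕ} : ∀ {m : ℕ} {f f' : ℝ → ℝ}, Cl g d m f → Cl g d m f' → Cl g d m (fun t => f t + f' t) := by
  induction d with
  | zero =>
    rintro m f f' ⟨p, hp, h⟩ ⟨p', hp', h'⟩
    exact ⟨p + p', (natDegree_add_le _ _).trans (max_le hp hp'), fun t => by
      beta_reduce
      rw [h, h', eval_add]⟩
  | succ d ih =>
    rintro m f f' ⟨P, h, hP, hh, hf⟩ ⟨P', h', hP', hh', hf'⟩
    refine ⟨fun β => P β + P' β, fun t => h t + h' t, fun β => (natDegree_add_le _ _).trans (max_le (hP β) (hP' β)),
      ih hh hh', fun t => ?_⟩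
    beta_reduce
    rw [hf, hf']
    simp only [eval_add, add_mul, Finset.sum_add_distrib]
    ring

theorem Cl.mulp {d : ℕ} : ∀ {m a : ℕ} {f : ℝ → ℝ} {q : ℝ[X]}, Cl g d m f → q.natDegree ≤ a →
    Cl g d (m + a) (fun t => q.eval t * f t) := by
  induction d with
  | zero =>
    rintro m a f q ⟨p, hp, h⟩ hq
    refine ⟨q * p, natDegree_mul_le.trans (by omega), fun t => by
      beta_reduce
      rw [h, eval_mul]⟩
  | succ d ih =>
    rintro m a f q ⟨P, h, hP, hh, hf⟩ hq
    refine ⟨fun β => q * P β, fun t => q.eval t * h t, fun β => natDegree_mul_le.trans (by have := hP β; omega),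
      ih hh hq, fun t => ?_⟩
    beta_reduce
    rw [hf, mul_add, Finset.mul_sum]
    congr 1
    exact Finset.sum_congr rfl fun β _ => by rw [eval_mul]; ring

theorem Cl.zero {m : ℕ} : ∀ d : ℕ, Cl g d m (fun _ => 0) := by
  intro d
  induction d with
  | zero => exact ⟨0, by simp, by simp⟩
  | succ d ih => exact ⟨fun _ => 0, fun _ => 0, by simp, ih, by simp⟩

theorem Cl.sum {d m : ℕ} {ι : Type} (s : Finset ι) {f : ι → ℝ → ℝ} (h : ∀ i ∈ s, Cl g d m (f i)) :
    Cl g d m (fun t => ∑ i ∈ s, f i t) := by
  classical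
  induction s using Finset.induction_on with
  | empty => simpa using Cl.zero d
  | insert i s hi ih =>
    refine ((h i (Finset.mem_insert_self _ _)).add (ih fun j hj => h j (Finset.mem_insert_of_mem hj))).congr fun t => ?_
    rw [Finset.sum_insert hi]

theorem Cl.up {d m : ℕ} {f : ℝ → ℝ} (h : Cl g d m f) : Cl g (d + 1) m f :=
  ⟨fun _ => 0, f, by simp, h, by simp⟩

theorem Cl.up_le {d d' m : ℕ} {f : ℝ → ℝ} (h : Cl g d m f) (hd : d ≤ d') : Cl g d' m f := by
  induction hd with
  | refl => exact h
  | step _ ih => exact ih.up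

theorem Cl.poly {d m : ℕ} (p : ℝ[X]) (hp : p.natDegree ≤ m) : Cl g d m (fun t => p.eval t) :=
  Cl.up_le (d := 0) ⟨p, hp, fun _ => rfl⟩ (Nat.zero_le d)

/-- top part -/
theorem Cl.top {d m : ℕ} (P : (Fin (d + 1) → Fin r) → ℝ[X]) (hP : ∀ β, (P β).natDegree ≤ m) :
    Cl g (d + 1) m (fun t => ∑ β, (P β).eval t * ∏ i, lg g (β i) t) :=
  ⟨P, fun _ => 0, hP, Cl.zero d, by simp⟩

/-- words -/
theorem Cl.word : ∀ (j : ℕ) (β : Fin j → Fin r), Cl g j 0 (fun t => ∏ i, lg g (β i) t) := by
  classical
  intro j
  cases j with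
  | zero =>
    intro β
    exact ⟨1, by simp, by simp⟩
  | succ j =>
    intro β
    refine (Cl.top (fun γ => if γ = β then 1 else 0) (m := 0) fun γ => ?_).congr fun t => ?_
    · by_cases h : γ = β <;> simp [h]
    · rw [Finset.sum_eq_single β]
      · simp
      · intro γ _ hγ
        rw [if_neg hγ]
        simp
      · simp

/-- multiplication by a logarithm -/
theorem Cl.mull {d : ℕ} : ∀ {m : ℕ} {f : ℝ → ℝ} (k : Fin r), Cl g d m f → Cl g (d + 1) m (fun t => lg g k t * f t) := by
  classical
  induction d with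
  | zero =>
    rintro m f k ⟨p, hp, h⟩
    have h1 := (Cl.word (g := g) 1 fun _ => k).mulp hp
    rw [zero_add] at h1
    refine h1.congr fun t => ?_
    rw [h]
    rw [Fin.prod_univ_one, mul_comm]
  | succ d ih =>
    rintro m f k ⟨P, h, hP, hh, hf⟩
    have h1 : Cl g (d + 1 + 1) m (fun t => ∑ β, (P β).eval t * (∏ i, lg g ((Fin.cons k β : Fin (d + 2) → Fin r) i) t)) := by
      refine Cl.sum _ fun β _ => ?_
      have h2 := (Cl.word (g := g) (d + 2) (Fin.cons k β)).mulp (hP β)
      rwa [zero_add] at h2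
    refine (h1.add (ih k hh).up).congr fun t => ?_
    rw [hf, mul_add, Finset.mul_sum]
    congr 1
    refine Finset.sum_congr rfl fun β _ => ?_
    have e : ∏ i, lg g ((Fin.cons k β : Fin (d + 2) → Fin r) i) t = lg g k t * ∏ i, lg g (β i) t := by
      rw [Fin.prod_univ_succ]
      rfl
    rw [e]
    ring

/-- the derivative of a word -/
theorem hasDerivAt_word {t : ℝ} (ht : (GG g).eval t ≠ 0) {j : ℕ} (β : Fin (j + 1) → Fin r) :
    HasDerivAt (fun t => ∏ i, lg g (β i) t)
      ((∑ i : Fin (j + 1), (qq g (β i)).eval t * ∏ l : Fin j, lg g (β (i.succAbove l)) t) / (GG g).eval t) t := by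
  classical
  have h1 := HasDerivAt.fun_finsetProd (u := Finset.univ) (f := fun i t => lg g (β i) t)
    (f' := fun i => (qq g (β i)).eval t / (GG g).eval t) (x := t) (fun i _ => hasDerivAt_lg g ht (β i))
  refine h1.congr_deriv ?_
  rw [Finset.sum_div]
  refine Finset.sum_congr rfl fun i _ => ?_
  have h2 : ∏ l ∈ Finset.univ.erase i, lg g (β l) t = ∏ l : Fin j, lg g (β (i.succAbove l)) t := by
    have h3 := Fin.prod_univ_succAbove (fun l => if l = i then 1 else lg g (β l) t) i
    rw [if_pos rfl, one_mul] at h3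
    have h4 : ∏ l : Fin j, lg g (β (i.succAbove l)) t =
        ∏ l : Fin j, (if i.succAbove l = i then 1 else lg g (β (i.succAbove l)) t) :=
      Finset.prod_congr rfl fun l _ => by rw [if_neg (Fin.succAbove_ne i l)]
    rw [h4, ← h3, ← Finset.mul_prod_erase _ _ (Finset.mem_univ i), if_pos rfl, one_mul]
    exact Finset.prod_congr rfl fun l hl => by rw [if_neg (Finset.ne_of_mem_erase hl)]
  rw [h2, smul_eq_mul]
  ring

variable {D : ℕ} (hD : ∀ k, (g k).natDegree ≤ D)

include hD in
/-- the lower part of the derivative of the top part -/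
theorem Cl.low {d m : ℕ} (P : (Fin (d + 1) → Fin r) → ℝ[X]) (hP : ∀ β, (P β).natDegree ≤ m) :
    Cl g d (m + r * D) (fun t => ∑ β, (P β).eval t * ∑ i : Fin (d + 1), (qq g (β i)).eval t *
      ∏ l : Fin d, lg g (β (i.succAbove l)) t) := by
  refine Cl.sum _ fun β _ => ?_
  have h1 : Cl g d (r * D) (fun t => ∑ i : Fin (d + 1), (qq g (β i)).eval t * ∏ l : Fin d, lg g (β (i.succAbove l)) t) := by
    refine Cl.sum _ fun i _ => ?_
    have h2 := (Cl.word (g := g) d fun l => β (i.succAbove l)).mulp (natDegree_qq g hD (β i))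
    rwa [zero_add] at h2
  have h3 := h1.mulp (hP β)
  exact h3.mono (by omega)

theorem hasDerivAt_top {t : ℝ} (ht : (GG g).eval t ≠ 0) {d : ℕ} (P : (Fin (d + 1) → Fin r) → ℝ[X]) :
    HasDerivAt (fun t => ∑ β, (P β).eval t * ∏ i, lg g (β i) t)
      (∑ β, (derivative (P β)).eval t * ∏ i, lg g (β i) t +
        (∑ β, (P β).eval t * ∑ i : Fin (d + 1), (qq g (β i)).eval t * ∏ l : Fin d, lg g (β (i.succAbove l)) t) /
          (GG g).eval t) t := by
  have h1 := HasDerivAt.fun_sum (u := Finset.univ) (x := t) (A := fun (β : Fin (d + 1) → Fin r) t => (P β).eval t * ∏ i, lg g (β i) t)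
    (A' := fun β => (derivative (P β)).eval t * ∏ i, lg g (β i) t + (P β).eval t *
      ((∑ i : Fin (d + 1), (qq g (β i)).eval t * ∏ l : Fin d, lg g (β (i.succAbove l)) t) / (GG g).eval t))
    (fun β _ => ((P β).hasDerivAt t).mul (hasDerivAt_word ht β))
  refine h1.congr_deriv ?_
  rw [Finset.sum_add_distrib, Finset.sum_div]
  congr 1
  exact Finset.sum_congr rfl fun β _ => by ring

include hD in
/-- the derivative -/
theorem Cl.deriv {d : ℕ} : ∀ {m : ℕ} {f : ℝ → ℝ}, Cl g d m f → ∃ f1 : ℝ → ℝ, Cl g d (m + r * D) f1 ∧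
    ∀ t, (GG g).eval t ≠ 0 → HasDerivAt f (f1 t / (GG g).eval t) t := by
  induction d with
  | zero =>
    rintro m f ⟨p, hp, h⟩
    refine ⟨fun t => (GG g * derivative p).eval t, Cl.poly _ (natDegree_mul_le.trans ?_), fun t ht => ?_⟩
    · have h1 := natDegree_GG g hD
      have h2 := natDegree_derivative_le p
      omega
    · have h1 : f = fun t => p.eval t := funext h
      rw [h1]
      refine (p.hasDerivAt t).congr_deriv ?_
      beta_reduce
      rw [eval_mul, mul_div_cancel_left₀ _ ht]
  | succ d ih =>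
    rintro m f ⟨P, h, hP, hh, hf⟩
    obtain ⟨h1, hh1, hd1⟩ := ih hh
    refine ⟨fun t => ∑ β, (GG g * derivative (P β)).eval t * ∏ i, lg g (β i) t +
      (∑ β, (P β).eval t * ∑ i : Fin (d + 1), (qq g (β i)).eval t * ∏ l : Fin d, lg g (β (i.succAbove l)) t + h1 t), ?_, ?_⟩
    · refine (Cl.top _ fun β => natDegree_mul_le.trans ?_).add ((Cl.low hD P hP).add hh1).up
      have h1 := natDegree_GG g hD
      have h2 := natDegree_derivative_le (P β)
      have h3 := hP β
      omega
    · intro t ht
      have hf' : f = fun t => ∑ β, (P β).eval t * ∏ i, lg g (β i) t + h t := funext hf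
      rw [hf']
      refine ((hasDerivAt_top ht P).add (hd1 t ht)).congr_deriv ?_
      have e1 : ∑ β, (GG g * derivative (P β)).eval t * ∏ i, lg g (β i) t =
          (GG g).eval t * ∑ β, (derivative (P β)).eval t * ∏ i, lg g (β i) t := by
        rw [Finset.mul_sum]
        exact Finset.sum_congr rfl fun β _ => by rw [eval_mul]; ring
      beta_reduce
      rw [e1]
      field_simp
      ring

/-- **The zero bound.** -/
theorem zeros (d : ℕ) : ∀ m : ℕ, ∃ N : ℕ, ∀ (g : Fin r → ℝ[X]), (∀ k, (g k).natDegree ≤ D) → ∀ f : ℝ → ℝ, Cl g d m f →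
    ∀ I : Set ℝ, I.OrdConnected → (∀ t ∈ I, (GG g).eval t ≠ 0) → ZB I N f := by
  induction d with
  | zero =>
    intro m
    refine ⟨m, fun g _ f hf I _ _ => ?_⟩
    obtain ⟨p, hp, h⟩ := hf
    by_cases h0 : p = 0
    · left
      intro t _
      rw [h, h0, eval_zero]
    · right
      intro T hT
      have h1 : T ⊆ p.roots.toFinset := by
        intro t ht
        rw [Multiset.mem_toFinset, mem_roots h0, IsRoot.def, ← h]
        exact (hT t ht).2
      calc T.card ≤ p.roots.toFinset.card := Finset.card_le_card h1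
        _ ≤ Multiset.card p.roots := Multiset.toFinset_card_le _
        _ ≤ p.natDegree := card_roots' p
        _ ≤ m := hp
  | succ d ih =>
    -- the auxiliary class
    have aux : ∀ m M s : ℕ, ∃ N : ℕ, ∀ (g : Fin r → ℝ[X]), (∀ k, (g k).natDegree ≤ D) →
        ∀ (P : (Fin (d + 1) → Fin r) → ℝ[X]) (h : ℝ → ℝ), (∀ β, (P β).degree < m) → Cl g d M h →
        ∀ I : Set ℝ, I.OrdConnected → (∀ t ∈ I, (GG g).eval t ≠ 0) →
        ZB I N (fun t => ∑ β, (P β).eval t * ∏ i, lg g (β i) t + h t / (GG g).eval t ^ s) := by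
      intro m
      induction m with
      | zero =>
        intro M s
        obtain ⟨N, hN⟩ := ih M
        refine ⟨N, fun g hD P h hP hh I hI hIG => ?_⟩
        have hP0 : ∀ β, P β = 0 := fun β => by
          have := hP β
          rw [Nat.cast_zero] at this
          exact degree_eq_bot.1 (by
            by_contra hb
            have h1 := (WithBot.bot_lt_iff_ne_bot.2 hb)
            have h2 : (0 : WithBot ℕ) ≤ (P β).degree := zero_le_degree_iff.2 fun h0 => hb (degree_eq_bot.2 h0)
            exact absurd this (not_lt.2 h2))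
        have he : (fun t => ∑ β, (P β).eval t * ∏ i, lg g (β i) t + h t / (GG g).eval t ^ s) =
            fun t => h t / (GG g).eval t ^ s := by
          funext t
          simp [hP0]
        rw [he]
        rcases hN g hD h hh I hI hIG with h1 | h1
        · left
          intro t ht
          simp only [h1 t ht, zero_div]
        · right
          intro T hT
          refine h1 T fun t ht => ⟨(hT t ht).1, ?_⟩
          have h2 := (hT t ht).2
          simp only at h2
          rcases div_eq_zero_iff.1 h2 with h3 | h3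
          · exact h3
          · exact absurd h3 (pow_ne_zero s (hIG t (hT t ht).1))
      | succ m ihm =>
        intro M s
        obtain ⟨N, hN⟩ := ihm (s * (r * D) + (m + r * D) + (M + r * D)) (s + 1)
        refine ⟨N + 1, fun g hD P h hP hh I hI hIG => ?_⟩
        obtain ⟨h1, hh1, hd1⟩ := hh.deriv hD
        have hPm : ∀ β, (P β).natDegree ≤ m := fun β => by
          rw [natDegree_le_iff_degree_le]
          exact Order.le_of_lt_succ (by
            have := hP β
            rw [Nat.cast_succ] at this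
            exact this)
        -- the derivative
        have hder : ∀ t ∈ I, HasDerivAt (fun t => ∑ β, (P β).eval t * ∏ i, lg g (β i) t + h t / (GG g).eval t ^ s)
            (∑ β, (derivative (P β)).eval t * ∏ i, lg g (β i) t +
              ((GG g ^ s).eval t * (∑ β, (P β).eval t * ∑ i : Fin (d + 1), (qq g (β i)).eval t *
                ∏ l : Fin d, lg g (β (i.succAbove l)) t) +
              (h1 t + (-(C (s : ℝ)) * derivative (GG g)).eval t * h t)) / (GG g).eval t ^ (s + 1)) t := by
          intro t ht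
          have hG := hIG t ht
          have h2 := ((hd1 t hG).div (((GG g).hasDerivAt t).pow s) (pow_ne_zero s hG))
          refine ((hasDerivAt_top hG P).add h2).congr_deriv ?_
          simp only [eval_mul, eval_neg, eval_C, eval_pow, Pi.pow_apply]
          rcases Nat.eq_zero_or_pos s with h4 | h4
          · subst h4
            simp
            field_simp
            ring
          · obtain ⟨u, rfl⟩ : ∃ u, s = u + 1 := ⟨s - 1, by omega⟩
            simp only [Nat.add_sub_cancel]
            push_cast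
            field_simp
            ring
        refine rolle hI hder ?_
        refine hN g hD (fun β => derivative (P β)) _ (fun β => ?_) ?_ I hI hIG
        · by_cases h0 : P β = 0
          · rw [h0, derivative_zero, degree_zero]
            exact WithBot.bot_lt_coe m
          · refine (degree_derivative_lt h0).trans_le ?_
            rw [← natDegree_le_iff_degree_le]
            exact hPm β
        · have e1 : (GG g ^ s).natDegree ≤ s * (r * D) :=
            natDegree_pow_le.trans (Nat.mul_le_mul_left _ (natDegree_GG g hD))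
          have e2 := (Cl.low hD P hPm).mulp e1
          have e3 : (-(C (s : ℝ)) * derivative (GG g)).natDegree ≤ r * D := by
            refine natDegree_mul_le.trans ?_
            rw [natDegree_neg, natDegree_C, zero_add]
            exact (natDegree_derivative_le _).trans ((Nat.sub_le _ _).trans (natDegree_GG g hD))
          have e4 := hh.mulp e3
          exact (e2.mono (by omega)).add ((hh1.mono (by omega)).add (e4.mono (by omega)))
    intro m
    obtain ⟨N, hN⟩ := aux (m + 1) m 0
    refine ⟨N, fun g hD f hf I hI hIG => ?_⟩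
    obtain ⟨P, h, hP, hh, hf⟩ := hf
    have h1 := hN g hD P h (fun β => by
      have := hP β
      rw [natDegree_le_iff_degree_le] at this
      exact this.trans_lt (by exact_mod_cast Nat.lt_succ_self m)) hh I hI hIG
    have h2 : f = fun t => ∑ β, (P β).eval t * ∏ i, lg g (β i) t + h t / (GG g).eval t ^ 0 := by
      funext t
      rw [hf, pow_zero, div_one]
    rw [h2]
    exact h1

end Pool.Agent.T9h51.OP
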